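import Pool.Agent.V1152.SMIJ

set_option autoImplicit false

/-!
# The Pesin region of the Chirikov maps and its complement coexist at all scales above `|λ|^(-1/6)`

`T_λ (x, y) = (2x - y + λ sin x, x)` modulo `2π`, for EVERY `λ` with `|λ| ≥ 2π`.  Let `P` be the set
of the points with a positive Lyapunov exponent and `m` the normalised Lebesgue measure.  For all
boxes `R`, products of a Borel set and an arc, `m(P ∩ R) = m(P) m(R)` up to
`C min(m(P), 1 - m(P))^(1/2) |λ|^(-1/6)`.  So, if neither `P` nor its complement has a measure below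
`C² ρ^(-2) |λ|^(-1/3)`, both have positive measure in every box of area at least `ρ`.
-/

open Real MeasureTheory Function Filter

namespace Pool.Agent.Results.MP_be9500_an.CoexistenceAtScale

/-- The torus, in the coordinates `(x / 2π, y / 2π)`; `volume` is the normalised Lebesgue measure
`m`. -/
abbrev Torus := UnitAddCircle × UnitAddCircle

/-- The point of the torus `ℝ² / (2πℤ)²` with the coordinates `x`, `y`. -/
noncomputable def point (x y : ℝ) : Torus :=
  (((x / (2 * π) : ℝ) : UnitAddCircle), ((y / (2 * π) : ℝ) : UnitAddCircle))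

/-- The lift of `T_λ` to the plane. -/
noncomputable def planeMap (lam : ℝ) (p : ℝ × ℝ) : ℝ × ℝ :=
  (2 * p.1 - p.2 + lam * sin p.1, p.1)

/-- `T` is the Chirikov standard map `T_λ`. -/
def IsStandardMap (lam : ℝ) (T : Torus → Torus) : Prop :=
  ∀ x y : ℝ, T (point x y) = point (planeMap lam (x, y)).1 (planeMap lam (x, y)).2

/-- The exponent of `T_λ` at the point with the coordinates `x`, `y` is positive: for some `r > 0`,
`‖D T_λ^n‖ ≥ e^(r n)` there for infinitely many `n`, that is, `limsup (1/n) log ‖D T_λ^n‖ > 0`. -/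
def PositiveExponent (lam x y : ℝ) : Prop :=
  ∃ r : ℝ, 0 < r ∧ ∃ᶠ n : ℕ in atTop, exp (r * n) ≤ ‖fderiv ℝ (planeMap lam)^[n] (x, y)‖

/-- The Pesin region `P(T_λ)`. -/
def pesin (lam : ℝ) : Set Torus := {p | ∃ x y : ℝ, p = point x y ∧ PositiveExponent lam x y}

/-- An open arc, the image of `(c - w, c + w)` with `0 < w ≤ 1/2`. -/
def IsArc (J : Set UnitAddCircle) : Prop :=
  ∃ c w : ℝ, 0 < w ∧ w ≤ 1 / 2 ∧
    J = (fun t : ℝ => (t : UnitAddCircle)) '' Set.Ioo (c - w) (c + w)

/-- `R` is a box: a product of a Borel set and an arc, in one of the two orders. -/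
def IsBox (R : Set Torus) : Prop :=
  ∃ E J : Set UnitAddCircle, MeasurableSet E ∧ IsArc J ∧ (R = E ×ˢ J ∨ R = J ×ˢ E)

theorem arc_prop {J : Set UnitAddCircle} (hJ : IsArc J) :
    MeasurableSet J ∧ V1152.SMI.Smoothable J 2 := by
  obtain ⟨c, w, hw, hw2, rfl⟩ := hJ
  exact ⟨(V1152.SMI.arc_open (c := c) hw hw2).measurableSet, V1152.SMI.smoothable_arc hw hw2⟩

/-- every point has coordinates -/
theorem exists_point (p : Torus) : ∃ x y : ℝ, p = point x y := by
  have hpi := Real.pi_pos
  obtain ⟨p1, p2⟩ := p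
  induction p1 using QuotientAddGroup.induction_on with
  | H s =>
    induction p2 using QuotientAddGroup.induction_on with
    | H t =>
      refine ⟨2 * π * s, 2 * π * t, ?_⟩
      unfold point
      rw [mul_div_cancel_left₀ s (by positivity), mul_div_cancel_left₀ t (by positivity)]

/-- the condition does not depend on the representatives -/
theorem pesin_eq (lam : ℝ) : pesin lam = V1152.SMI.PP (lam / (2 * π)) := by
  ext p
  constructor
  · rintro ⟨x, y, rfl, h⟩
    exact (V1152.SMI.mem_PP lam x y).2 h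
  · intro h
    obtain ⟨x, y, rfl⟩ := exists_point p
    exact ⟨x, y, rfl, (V1152.SMI.mem_PP lam x y).1 h⟩

/-- a point is in the Pesin region when its exponent is positive, for any coordinates -/
theorem mem_pesin (lam x y : ℝ) : point x y ∈ pesin lam ↔ PositiveExponent lam x y := by
  rw [pesin_eq]
  exact V1152.SMI.mem_PP lam x y

/-- the map in the library -/
theorem eq_S {lam : ℝ} {T : Torus → Torus} (hT : IsStandardMap lam T) :
    T = TH705.SM.S (lam / (2 * π)) := by
  have hpi := Real.pi_pos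
  apply TH705.SM.eq_S
  intro s t
  have h := hT (2 * π * s) (2 * π * t)
  unfold point planeMap at h
  simp only at h
  rw [mul_div_cancel_left₀ s (by positivity), mul_div_cancel_left₀ t (by positivity)] at h
  rw [h]
  have e : (2 * (2 * π * s) - 2 * π * t + lam * sin (2 * π * s)) / (2 * π) =
      2 * s - t + lam / (2 * π) * sin (2 * π * s) := by
    field_simp
  rw [e]

/-- **The Pesin region is nearly independent of all boxes; coexistence at scale.** -/
theorem result : ∃ C : ℝ, 0 < C ∧ ∀ lam : ℝ, 2 * π ≤ |lam| →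
    MeasurableSet (pesin lam) ∧
    (∀ T : Torus → Torus, IsStandardMap lam T → T ⁻¹' pesin lam = pesin lam) ∧
    -- (1) near independence
    (∀ R : Set Torus, IsBox R →
      |volume.real (pesin lam ∩ R) - volume.real (pesin lam) * volume.real R| ≤
        C * √(min (volume.real (pesin lam)) (1 - volume.real (pesin lam))) *
          |lam| ^ (-(1 / 6) : ℝ)) ∧
    -- (2) coexistence in all boxes of area at least `ρ`
    (∀ ρ : ℝ, 0 < ρ → C ^ 2 / ρ ^ 2 * |lam| ^ (-(1 / 3) : ℝ) <
        min (volume.real (pesin lam)) (1 - volume.real (pesin lam)) →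
      ∀ R : Set Torus, IsBox R → ρ ≤ volume.real R →
        0 < volume.real (R ∩ pesin lam) ∧ 0 < volume.real (R \ pesin lam)) := by
  have hCC := V1152.SMI.CC_pos
  have hpi := Real.pi_pos
  have hvol : ∀ E J : Set UnitAddCircle, volume.real (E ×ˢ J) = volume.real E * volume.real J := by
    intro E J
    have : (volume : Measure Torus) (E ×ˢ J) = volume E * volume J := by
      rw [TH705.SM.vol_T2, Measure.prod_prod]
    rw [measureReal_def, this, ENNReal.toReal_mul]
    rfl
  have hP6 : 0 < (2 * π) ^ (1 / 6 : ℝ) := Real.rpow_pos_of_pos (by positivity) _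
  have hC0 : 0 < √(V1152.SMI.CC * (1 + 2)) * (2 * π) ^ (1 / 6 : ℝ) := by positivity
  refine ⟨√(V1152.SMI.CC * (1 + 2)) * (2 * π) ^ (1 / 6 : ℝ), hC0, ?_⟩
  intro lam hlam
  set a := lam / (2 * π) with had
  have habs : |a| = |lam| / (2 * π) := by
    rw [had, abs_div, abs_of_pos (by positivity : (0:ℝ) < 2 * π)]
  have ha : 1 ≤ |a| := by
    rw [habs, le_div_iff₀ (by positivity), one_mul]
    exact hlam
  have ha0 : 0 < |a| := by linarith
  have hl0 : 0 < |lam| := lt_of_lt_of_le (by positivity) hlam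
  have hpow : |a| ^ (-(1 / 6) : ℝ) = (2 * π) ^ (1 / 6 : ℝ) * |lam| ^ (-(1 / 6) : ℝ) := by
    rw [habs, Real.div_rpow hl0.le (by positivity), Real.rpow_neg (by positivity : (0:ℝ) ≤ 2 * π),
      div_inv_eq_mul, mul_comm]
  have hPm : MeasurableSet (pesin lam) := by
    rw [pesin_eq]
    exact V1152.SMI.PP_meas _
  have hPi : TH705.SM.S a ⁻¹' pesin lam = pesin lam := by
    rw [pesin_eq]
    exact V1152.SMI.PP_inv _
  set C := √(V1152.SMI.CC * (1 + 2)) * (2 * π) ^ (1 / 6 : ℝ) with hC
  set v := volume.real (pesin lam) with hv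
  set s := min v (1 - v) with hs
  have key : ∀ R : Set Torus, IsBox R → MeasurableSet R ∧
      |volume.real (pesin lam ∩ R) - v * volume.real R| ≤ C * √s * |lam| ^ (-(1 / 6) : ℝ) := by
    rintro R ⟨E, J, hE, hJ, hR⟩
    obtain ⟨hJm, hJs⟩ := arc_prop hJ
    have e : C * √s * |lam| ^ (-(1 / 6) : ℝ) =
        √(V1152.SMI.CC * (1 + 2)) * √s * |a| ^ (-(1 / 6) : ℝ) := by
      rw [hpow, hC]
      ring
    rw [e]
    rcases hR with rfl | rfl
    · refine ⟨hE.prod hJm, ?_⟩
      rw [hvol]
      exact V1152.SMI.box_min ha hPm hPi hE hJm (by norm_num) hJs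
    · refine ⟨hJm.prod hE, ?_⟩
      rw [hvol]
      exact V1152.SMI.box_swap ha hPm hPi hE hJm (by norm_num) hJs
  clear_value C
  refine ⟨hPm, ?_, fun R hR => (key R hR).2, ?_⟩
  · intro T hT
    rw [eq_S hT]
    exact hPi
  · intro ρ hρ hlt R hR hRρ
    obtain ⟨hRm, hRb⟩ := key R hR
    have hs0 : 0 < s := lt_of_le_of_lt (by positivity) hlt
    have hlam6 : 0 < |lam| ^ (-(1 / 6) : ℝ) := Real.rpow_pos_of_pos hl0 _
    have h7 : (|lam| ^ (-(1 / 6) : ℝ)) ^ 2 = |lam| ^ (-(1 / 3) : ℝ) := by
      rw [← Real.rpow_natCast, ← Real.rpow_mul hl0.le]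
      norm_num
    have h8 : C * √s * |lam| ^ (-(1 / 6) : ℝ) < s * ρ := by
      have hsq : 0 < √s := Real.sqrt_pos.2 hs0
      have h9 : C * |lam| ^ (-(1 / 6) : ℝ) < √s * ρ := by
        apply lt_of_pow_lt_pow_left₀ 2 (by positivity)
        rw [mul_pow, mul_pow, h7, Real.sq_sqrt hs0.le]
        have h10 := mul_lt_mul_of_pos_right hlt (show 0 < ρ ^ 2 by positivity)
        have e : C ^ 2 / ρ ^ 2 * |lam| ^ (-(1 / 3) : ℝ) * ρ ^ 2 = C ^ 2 * |lam| ^ (-(1 / 3) : ℝ) := by
          field_simp
        rwa [e] at h10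
      calc C * √s * |lam| ^ (-(1 / 6) : ℝ) = √s * (C * |lam| ^ (-(1 / 6) : ℝ)) := by ring
        _ < √s * (√s * ρ) := mul_lt_mul_of_pos_left h9 hsq
        _ = s * ρ := by rw [← mul_assoc, Real.mul_self_sqrt hs0.le]
    obtain ⟨g1, g2⟩ := abs_le.1 hRb
    have hsv : s ≤ v := min_le_left _ _
    have hsv' : s ≤ 1 - v := min_le_right _ _
    have hR0 : 0 < volume.real R := lt_of_lt_of_le hρ hRρ
    have k1 : s * ρ ≤ v * volume.real R :=
      mul_le_mul hsv hRρ hρ.le (hs0.le.trans hsv)
    have k2 : s * ρ ≤ (1 - v) * volume.real R :=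
      mul_le_mul hsv' hRρ hρ.le (hs0.le.trans hsv')
    have k3 := measureReal_inter_add_sdiff (μ := (volume : Measure Torus)) (s := R) hPm
    rw [Set.inter_comm R] at k3 ⊢
    constructor
    · linarith
    · have : volume.real R - volume.real (pesin lam ∩ R) = volume.real (R \ pesin lam) := by
        linarith
      rw [← this]
      nlinarith

end Pool.Agent.Results.MP_be9500_an.CoexistenceAtScale
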