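import Pool.Agent.V1152.SMIJ
import Pool.Agent.V1152.SMIN

set_option autoImplicit false

/-!
# The Pesin region of the Chirikov maps and its complement coexist at exponentially small scales

`T_λ (x, y) = (2x - y + λ sin x, x)` modulo `2π`, `|λ| ≥ 512 π`, `b = |λ| / 2π`; no value of `λ` is
excluded.  Let `P` be the set of the points with a positive Lyapunov exponent and `m` the normalised
Lebesgue measure.  Let `D` be the set of the points all of whose neighbourhoods meet both `P` and
its complement in positive measure: true coexistence holds on an open set `U` exactly if `U ⊆ D`.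

* Both `P` and its complement have positive measure in the ball of radius `2 b^(-n/4)` around each
  point of a closed set of measure at least `min (m(P), 1 - m(P)) - 3 n / b - 4 / √b`.
* If `η ≤ m(P) ≤ 1 - η`, the length of `D` is at least `(b ^ ((η b - 5 √b) / 12) - 1) / 2`.

The proof: the largest open sets in which `P`, or the complement of `P`, is null are invariant, and
the geometric lemmas of the starting repository (`Y332.SM`) apply to them.
-/

open Real MeasureTheory Function Filter

namespace Pool.Agent.Results.MP_be9500_an.CoexistenceTinyScales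

/-- The torus, in the coordinates `(x / 2π, y / 2π)`, with the maximum metric; `volume` is the
normalised Lebesgue measure `m`. -/
abbrev Torus := UnitAddCircle × UnitAddCircle

/-- The point of the torus `ℝ² / (2πℤ)²` with the coordinates `x`, `y`. -/
noncomputable def point (x y : ℝ) : Torus :=
  (((x / (2 * π) : ℝ) : UnitAddCircle), ((y / (2 * π) : ℝ) : UnitAddCircle))

/-- The lift of `T_λ` to the plane. -/
noncomputable def planeMap (lam : ℝ) (p : ℝ × ℝ) : ℝ × ℝ :=
  (2 * p.1 - p.2 + lam * sin p.1, p.1)

/-- `T` is the Chirikov standard map `T_λ`. -/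
def IsStandardMap (lam : ℝ) (T : Torus → Torus) : Prop :=
  ∀ x y : ℝ, T (point x y) = point (planeMap lam (x, y)).1 (planeMap lam (x, y)).2

/-- The exponent of `T_λ` at the point with the coordinates `x`, `y` is positive: for some `r > 0`,
`‖D T_λ^n‖ ≥ e^(r n)` there for infinitely many `n`, that is, `limsup (1/n) log ‖D T_λ^n‖ > 0`. -/
def PositiveExponent (lam x y : ℝ) : Prop :=
  ∃ r : ℝ, 0 < r ∧ ∃ᶠ n : ℕ in atTop, exp (r * n) ≤ ‖fderiv ℝ (planeMap lam)^[n] (x, y)‖

/-- The Pesin region `P(T_λ)`. -/
def pesin (lam : ℝ) : Set Torus := {p | ∃ x y : ℝ, p = point x y ∧ PositiveExponent lam x y}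

/-- Both `A` and its complement have positive measure in the ball of radius `r` around `p`. -/
def Coexist (A : Set Torus) (r : ℝ) (p : Torus) : Prop :=
  0 < volume (A ∩ Metric.ball p r) ∧ 0 < volume (Aᶜ ∩ Metric.ball p r)

/-- The scale `a ^ (-n / 4)`, where `a = |λ| / 2π`. -/
noncomputable def scale (lam : ℝ) (n : ℕ) : ℝ := (|lam| / (2 * π)) ^ (-(n : ℝ) / 4)

/-- The error `3 n / a + 4 / √a`, where `a = |λ| / 2π`. -/
noncomputable def err (lam : ℝ) (n : ℕ) : ℝ :=
  3 * n / (|lam| / (2 * π)) + 4 / √(|lam| / (2 * π))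

theorem exists_point (p : Torus) : ∃ x y : ℝ, p = point x y := by
  have hpi := Real.pi_pos
  obtain ⟨p1, p2⟩ := p
  induction p1 using QuotientAddGroup.induction_on with
  | H s =>
    induction p2 using QuotientAddGroup.induction_on with
    | H t =>
      refine ⟨2 * π * s, 2 * π * t, ?_⟩
      unfold point
      rw [mul_div_cancel_left₀ s (by positivity), mul_div_cancel_left₀ t (by positivity)]

theorem pesin_eq (lam : ℝ) : pesin lam = V1152.SMI.PP (lam / (2 * π)) := by
  ext p
  constructor
  · rintro ⟨x, y, rfl, h⟩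
    exact (V1152.SMI.mem_PP lam x y).2 h
  · intro h
    obtain ⟨x, y, rfl⟩ := exists_point p
    exact ⟨x, y, rfl, (V1152.SMI.mem_PP lam x y).1 h⟩

/-- a point is in the Pesin region when its exponent is positive, for any coordinates -/
theorem mem_pesin (lam x y : ℝ) : point x y ∈ pesin lam ↔ PositiveExponent lam x y := by
  rw [pesin_eq]
  exact V1152.SMI.mem_PP lam x y

theorem eq_S {lam : ℝ} {T : Torus → Torus} (hT : IsStandardMap lam T) :
    T = TH705.SM.S (lam / (2 * π)) := by
  have hpi := Real.pi_pos
  apply TH705.SM.eq_S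
  intro s t
  have h := hT (2 * π * s) (2 * π * t)
  unfold point planeMap at h
  simp only at h
  rw [mul_div_cancel_left₀ s (by positivity), mul_div_cancel_left₀ t (by positivity)] at h
  rw [h]
  have e : (2 * (2 * π * s) - 2 * π * t + lam * sin (2 * π * s)) / (2 * π) =
      2 * s - t + lam / (2 * π) * sin (2 * π * s) := by
    field_simp
  rw [e]

theorem sqrt_ge {b : ℝ} (hb : 256 ≤ b) : 16 ≤ √b := by
  apply Real.le_sqrt_of_sq_le
  norm_num
  exact hb

theorem scale_ge {b : ℝ} (hb : 256 ≤ b) (n : ℕ) :
    (1 / √√b) ^ (n + 1) / 5 ≤ b ^ (-(n : ℝ) / 4) := by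
  have hb0 : 0 < b := by linarith
  have h1 : 1 / √√b = b ^ (-(1:ℝ) / 4) := by
    rw [Real.sqrt_eq_rpow, Real.sqrt_eq_rpow, ← Real.rpow_mul hb0.le, one_div, ← Real.rpow_neg hb0.le]
    norm_num
  have h2 : (1 / √√b) ^ n = b ^ (-(n : ℝ) / 4) := by
    rw [h1, ← Real.rpow_natCast, ← Real.rpow_mul hb0.le]
    congr 1
    ring
  have h3 : 0 < √√b := Real.sqrt_pos.2 (Real.sqrt_pos.2 hb0)
  have h4 : 1 / √√b ≤ 1 := by
    rw [div_le_one h3]
    apply Real.le_sqrt_of_sq_le
    have := sqrt_ge hb
    linarith
  rw [pow_succ, h2]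
  have h5 : 0 ≤ b ^ (-(n : ℝ) / 4) := by positivity
  have h6 : 0 < 1 / √√b := by positivity
  nlinarith

/-- The set `D` of the points all of whose neighbourhoods meet both `A` and its complement in
positive measure. -/
def coexistenceSet (A : Set Torus) : Set Torus := {p | ∀ r : ℝ, 0 < r → Coexist A r p}

/-- true coexistence on an open set `U` (both sets have positive measure in all nonempty open
subsets of `U`) means that `U` is contained in the coexistence set -/
theorem subset_iff (A U : Set Torus) (hU : IsOpen U) : U ⊆ coexistenceSet A ↔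
    ∀ V : Set Torus, IsOpen V → V.Nonempty → V ⊆ U → 0 < volume (A ∩ V) ∧ 0 < volume (Aᶜ ∩ V) := by
  constructor
  · rintro h V hV ⟨p, hp⟩ hVU
    obtain ⟨r, hr, hrV⟩ := Metric.isOpen_iff.1 hV p hp
    obtain ⟨h1, h2⟩ := h (hVU hp) r hr
    exact ⟨h1.trans_le (measure_mono (Set.inter_subset_inter_right _ hrV)),
      h2.trans_le (measure_mono (Set.inter_subset_inter_right _ hrV))⟩
  · intro h p hp r hr
    have hpB : p ∈ U ∩ Metric.ball p r := ⟨hp, Metric.mem_ball_self hr⟩
    obtain ⟨h1, h2⟩ := h (U ∩ Metric.ball p r) (hU.inter Metric.isOpen_ball) ⟨p, hpB⟩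
      Set.inter_subset_left
    exact ⟨h1.trans_le (measure_mono (Set.inter_subset_inter_right _ Set.inter_subset_right)),
      h2.trans_le (measure_mono (Set.inter_subset_inter_right _ Set.inter_subset_right))⟩

/-- **Coexistence at exponentially small scales, and the size of the coexistence set.** -/
theorem result (lam : ℝ) (hlam : 512 * π ≤ |lam|) :
    -- (1) coexistence at the scale `2 b^(-n/4)`
    (∀ n : ℕ, 1 ≤ n → ∃ K : Set Torus, IsClosed K ∧
      min (volume.real (pesin lam)) (1 - volume.real (pesin lam)) - err lam n ≤ volume.real K ∧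
        ∀ p ∈ K, Coexist (pesin lam) (2 * scale lam n) p) ∧
    -- (2) the length of the coexistence set
    (∀ η : ℝ, η ≤ volume.real (pesin lam) → η ≤ 1 - volume.real (pesin lam) →
      ENNReal.ofReal ((|lam| / (2 * π)) ^
        ((η * (|lam| / (2 * π)) - 5 * √(|lam| / (2 * π))) / 12)) ≤
          1 + 2 * Measure.hausdorffMeasure 1 (coexistenceSet (pesin lam))) := by
  have hpi := Real.pi_pos
  set b := |lam| / (2 * π) with hb
  have hb256 : 256 ≤ b := by
    rw [hb, le_div_iff₀ (by positivity)]
    linarith
  have hb0 : 0 < b := by linarith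
  have habs : |lam / (2 * π)| = b := by
    rw [abs_div, abs_of_pos (by positivity : (0:ℝ) < 2 * π)]
  have hM := sqrt_ge hb256
  have haM : |lam / (2 * π)| = √b ^ 2 := by rw [habs, Real.sq_sqrt hb0.le]
  have hA : MeasurableSet (pesin lam) := by
    rw [pesin_eq]
    exact V1152.SMI.PP_meas _
  have hinv : TH705.SM.S (lam / (2 * π)) ⁻¹' pesin lam = pesin lam := by
    rw [pesin_eq]
    exact V1152.SMI.PP_inv _
  have hc : volume.real (pesin lam)ᶜ = 1 - volume.real (pesin lam) := by
    rw [measureReal_compl hA]
    simp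
  refine ⟨?_, ?_⟩
  · intro n hn
    have herr : 3 * n / b + 3.71 / √b ≤ err lam n := by
      unfold err
      rw [← hb]
      have h2 : (3.71:ℝ) / √b ≤ 4 / √b := div_le_div_of_nonneg_right (by norm_num) (by linarith)
      linarith
    have hscale : 0 < scale lam n := Real.rpow_pos_of_pos hb0 _
    have he0 : 0 ≤ err lam n := by
      unfold err
      rw [← hb]
      positivity
    obtain ⟨K, hK, hKv, hKp⟩ := V1152.SMI.essential hM haM hn hA hinv hscale
      (scale_ge hb256 n)
    refine ⟨K, hK, ?_, hKp⟩
    rw [habs] at hKv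
    have hKv' : min (volume (pesin lam)) (volume (pesin lam)ᶜ) ≤
        ENNReal.ofReal (err lam n) + volume K :=
      hKv.trans (add_le_add (ENNReal.ofReal_le_ofReal herr) le_rfl)
    have hne : ENNReal.ofReal (err lam n) + volume K ≠ ⊤ :=
      ENNReal.add_ne_top.2 ⟨ENNReal.ofReal_ne_top, measure_ne_top _ _⟩
    have h3 := ENNReal.toReal_mono hne hKv'
    rw [ENNReal.toReal_add ENNReal.ofReal_ne_top (measure_ne_top _ _),
      ENNReal.toReal_ofReal he0, ENNReal.toReal_min (measure_ne_top _ _) (measure_ne_top _ _)] at h3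
    rw [← hc]
    show min (volume (pesin lam)).toReal (volume (pesin lam)ᶜ).toReal - err lam n ≤
      (volume K).toReal
    linarith
  · intro η h1 h2
    have h1' : ENNReal.ofReal η ≤ volume (pesin lam) :=
      ENNReal.ofReal_le_of_le_toReal (by simpa [measureReal_def] using h1)
    have h2' : ENNReal.ofReal η ≤ volume (pesin lam)ᶜ := by
      rw [← hc] at h2
      exact ENNReal.ofReal_le_of_le_toReal (by simpa [measureReal_def] using h2)
    have h := V1152.SMI.ess_length hM haM hA hinv h1' h2'
    rw [habs] at h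
    exact h

end Pool.Agent.Results.MP_be9500_an.CoexistenceTinyScales
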